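import Pool.Agent.H219.WhH.Nil

/-!
# The Dennis trace over fields of odd characteristic
-/

set_option autoImplicit false
set_option linter.unusedSectionVars false

namespace H219.WhH

open Finset
open Pool.Agent.H23R2 (InvPair IsCoc Y sum_Y_eq isCoc_of_hochschild resS)
open H219.WhR (coc_pow rest rest_coc)
open H219.WhC
open scoped Classical

section eval

variable {H : Type*} [Group H] {p : ℕ} [hp : Fact p.Prime]

/-- linear functionals on homomorphisms into `ZMod p` are evaluations -/
lemma exists_eval (hfg : Group.FG H) (lam : (Additive H →+ ZMod p) →ₗ[ZMod p] ZMod p) :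
    ∃ γ : H, ∀ φ : Additive H →+ ZMod p, lam φ = φ (Additive.ofMul γ) := by
  obtain ⟨T, hT⟩ := Group.fg_def.1 hfg
  let res : (Additive H →+ ZMod p) →ₗ[ZMod p] (T → ZMod p) :=
    { toFun := fun φ t => φ (Additive.ofMul t.1)
      map_add' := fun _ _ => rfl
      map_smul' := fun _ _ => rfl }
  have hinj : Function.Injective res := by
    intro φ ψ h
    have h1 : ∀ x : H, φ (Additive.ofMul x) = ψ (Additive.ofMul x) := by
      intro x
      have hx : x ∈ Subgroup.closure (T : Set H) := hT ▸ Subgroup.mem_top x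
      induction hx using Subgroup.closure_induction with
      | mem y hy => exact congrFun h ⟨y, hy⟩
      | one => simp
      | mul a b _ _ ha hb => rw [ofMul_mul, map_add, map_add, ha, hb]
      | inv a _ ha => rw [ofMul_inv, map_neg, map_neg, ha]
    apply AddMonoidHom.ext
    intro x
    exact h1 x.toMul
  have hfd : FiniteDimensional (ZMod p) (Additive H →+ ZMod p) :=
    FiniteDimensional.of_injective res hinj
  let W : Submodule (ZMod p) (Module.Dual (ZMod p) (Additive H →+ ZMod p)) :=
    { carrier := {l | ∃ γ : H, ∀ φ, l φ = φ (Additive.ofMul γ)}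
      add_mem' := by
        rintro a b ⟨γ, hγ⟩ ⟨δ, hδ⟩
        exact ⟨γ * δ, fun φ => by rw [LinearMap.add_apply, hγ, hδ, ofMul_mul, map_add]⟩
      zero_mem' := ⟨1, fun φ => by simp⟩
      smul_mem' := by
        rintro c a ⟨γ, hγ⟩
        refine ⟨γ ^ c.val, fun φ => ?_⟩
        rw [LinearMap.smul_apply, hγ, ofMul_pow, map_nsmul, nsmul_eq_mul,
          ZMod.natCast_zmod_val, smul_eq_mul] }
  have hW : W.dualCoannihilator = ⊥ := by
    rw [Submodule.eq_bot_iff]
    intro φ hφ
    rw [Submodule.mem_dualCoannihilator] at hφ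
    apply AddMonoidHom.ext
    intro x
    let l : Module.Dual (ZMod p) (Additive H →+ ZMod p) :=
      { toFun := fun φ => φ x
        map_add' := fun _ _ => rfl
        map_smul' := fun _ _ => rfl }
    exact hφ l ⟨x.toMul, fun φ => rfl⟩
  have hW' := Subspace.dualCoannihilator_dualAnnihilator_eq (W := W)
  rw [hW, Submodule.dualAnnihilator_bot] at hW'
  have : lam ∈ W := hW' ▸ Submodule.mem_top
  exact this

lemma expand {R : Type*} [CommRing R] [Algebra (ZMod p) R] {ι : Type*}
    (b : Module.Basis ι (ZMod p) R) (v : R) (T : Finset ι) (hT : (b.repr v).support ⊆ T) :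
    v = ∑ β ∈ T, algebraMap (ZMod p) R (b.repr v β) * b β := by
  have h2 : v = (b.repr v).sum fun β c => algebraMap (ZMod p) R c * b β := by
    conv_lhs => rw [← b.linearCombination_repr v]
    rw [Finsupp.linearCombination_apply]
    simp only [Algebra.smul_def]
  refine h2.trans ?_
  apply Finsupp.sum_of_support_subset _ hT
  intro β _
  rw [map_zero, zero_mul]

end eval

section one

variable {K : Type*} [Field K] {I : Type*} [Fintype I] {H : Type*} [Group H] {p : ℕ}
  [hp : Fact p.Prime] [CharP K p]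

/-- the class of `1` -/
lemma one_class (hp2 : p ≠ 2) (hfg : Group.FG H) (hroot : ∀ x y : H, x ^ p = y ^ p → x = y)
    {A B : I → I → H → K} {S : Finset H} (h : InvPair A B S) :
    ∃ γ : H, ∀ F : H → H → K, IsCoc F →
      DsumR A B S (rest (ConjClasses.mk 1) F) = F 1 γ := by
  let _ : Algebra (ZMod p) K := ZMod.algebra K p
  let _ : Module (ZMod p) K := Algebra.toModule
  let G : (Additive H →+ ZMod p) → H → H → K := fun φ w x =>
    if w = 1 then algebraMap (ZMod p) K (φ (Additive.ofMul x)) else 0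
  have hconj : ∀ w x : H, x⁻¹ * w * x = 1 ↔ w = 1 := by
    intro w x
    constructor
    · intro h
      have h3 : w = x * (x⁻¹ * w * x) * x⁻¹ := by group
      rw [h3, h]
      group
    · rintro rfl
      simp
  have hG : ∀ φ, IsCoc (G φ) := by
    intro φ w x y
    show (if w = 1 then algebraMap (ZMod p) K (φ (Additive.ofMul (x * y))) else 0) =
      (if w = 1 then algebraMap (ZMod p) K (φ (Additive.ofMul x)) else 0) +
        (if x⁻¹ * w * x = 1 then algebraMap (ZMod p) K (φ (Additive.ofMul y)) else 0)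
    by_cases hw : w = 1
    · rw [if_pos hw, if_pos hw, if_pos ((hconj w x).2 hw), ofMul_mul, map_add, map_add]
    · rw [if_neg hw, if_neg hw, if_neg (fun hh => hw ((hconj w x).1 hh)), add_zero]
  have hfix : ∀ φ w x, G φ w x ^ p = G φ w x := by
    intro φ w x
    show (if w = 1 then algebraMap (ZMod p) K (φ (Additive.ofMul x)) else 0) ^ p =
      (if w = 1 then algebraMap (ZMod p) K (φ (Additive.ofMul x)) else 0)
    split_ifs
    · rw [← map_pow, ZMod.pow_card]
    · exact zero_pow hp.out.ne_zero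
  have hpow : ∀ w : H, w ^ p = 1 ↔ w = 1 := by
    intro w
    constructor
    · intro hw
      exact hroot w 1 (by rw [hw, one_pow])
    · rintro rfl
      exact one_pow p
  have hinv : ∀ φ, DsumR A B S (G φ) ^ p = DsumR A B S (G φ) := by
    intro φ
    have h1 := frobenius_relation h hp2 (hG φ) (by
      intro w
      show (if w = 1 then algebraMap (ZMod p) K (φ (Additive.ofMul w)) else 0) = 0
      split_ifs with hw
      · rw [hw, ofMul_one, map_zero, map_zero]
      · rfl)
    have h2 : (fun w x => G φ (w ^ p) x) = G φ := by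
      funext w x
      show (if w ^ p = 1 then algebraMap (ZMod p) K (φ (Additive.ofMul x)) else 0) =
        (if w = 1 then algebraMap (ZMod p) K (φ (Additive.ofMul x)) else 0)
      by_cases hw : w = 1
      · rw [if_pos hw, if_pos ((hpow w).2 hw)]
      · rw [if_neg hw, if_neg (fun hh => hw ((hpow w).1 hh))]
    rw [h2] at h1
    have h3 := DsumR_pow (A := A) (B := B) (S := S) (hfix φ) 1
    rw [pow_one] at h3
    rw [h3, ← h1]
  have hrange : ∀ φ, ∃ c : ZMod p, algebraMap (ZMod p) K c = DsumR A B S (G φ) := by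
    intro φ
    have h1 := (Subfield.mem_bot_iff_pow_eq_self (F := K) (p := p)).2 (hinv φ)
    rw [← ZMod.fieldRange_castHom_eq_bot p] at h1
    obtain ⟨c, hc⟩ := h1
    exact ⟨c, hc⟩
  choose l hl using hrange
  have hinj : Function.Injective (algebraMap (ZMod p) K) := (algebraMap (ZMod p) K).injective
  have hadd : ∀ φ ψ, DsumR A B S (G (φ + ψ)) = DsumR A B S (G φ) + DsumR A B S (G ψ) := by
    intro φ ψ
    unfold DsumR
    rw [← Finset.sum_add_distrib]
    apply Finset.sum_congr rfl
    intro y _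
    rw [← smul_add]
    congr 1
    show (if _ = 1 then _ else 0) = (if _ = 1 then _ else 0) + (if _ = 1 then _ else 0)
    split_ifs
    · rw [AddMonoidHom.add_apply, map_add]
    · rw [add_zero]
  have hsmul : ∀ (c : ZMod p) φ, DsumR A B S (G (c • φ)) =
      algebraMap (ZMod p) K c * DsumR A B S (G φ) := by
    intro c φ
    unfold DsumR
    rw [Finset.mul_sum]
    apply Finset.sum_congr rfl
    intro y _
    rw [smul_eq_mul, smul_eq_mul, mul_left_comm]
    congr 1
    show (if _ = 1 then algebraMap (ZMod p) K ((c • φ) _) else 0) =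
      algebraMap (ZMod p) K c * (if _ = 1 then _ else 0)
    split_ifs
    · rw [AddMonoidHom.smul_apply, smul_eq_mul, map_mul]
    · rw [mul_zero]
  let lam : (Additive H →+ ZMod p) →ₗ[ZMod p] ZMod p :=
    { toFun := l
      map_add' := by
        intro φ ψ
        apply hinj
        rw [hl, hadd, map_add, hl, hl]
      map_smul' := by
        intro c φ
        apply hinj
        rw [hl, hsmul, RingHom.id_apply, smul_eq_mul, map_mul, hl] }
  obtain ⟨γ, hγ⟩ := exists_eval hfg lam
  refine ⟨γ, fun F hF => ?_⟩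
  let b := Module.Basis.ofVectorSpace (ZMod p) K
  let T : Finset (Module.Basis.ofVectorSpaceIndex (ZMod p) K) :=
    (b.repr (F 1 γ)).support ∪
      univ.biUnion fun y : Y I S => (b.repr (F 1 (y.2.2.1 : H))).support
  let φ : Module.Basis.ofVectorSpaceIndex (ZMod p) K → (Additive H →+ ZMod p) := fun β =>
    { toFun := fun x => b.repr (F 1 x.toMul) β
      map_zero' := by
        show b.repr (F 1 1) β = 0
        rw [hF.one, map_zero, Finsupp.zero_apply]
      map_add' := by
        intro x y
        show b.repr (F 1 (x.toMul * y.toMul)) β = b.repr (F 1 x.toMul) β + b.repr (F 1 y.toMul) β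
        have e : (x.toMul : H)⁻¹ * 1 * x.toMul = 1 := by group
        rw [hF 1 x.toMul y.toMul, e, map_add, Finsupp.add_apply] }
  have hφ : ∀ β x, φ β (Additive.ofMul x) = b.repr (F 1 x) β := fun β x => rfl
  have h1 : DsumR A B S (rest (ConjClasses.mk 1) F) =
      ∑ β ∈ T, DsumR A B S (G (φ β)) * b β := by
    unfold DsumR
    simp only [Finset.sum_mul]
    rw [Finset.sum_comm]
    apply Finset.sum_congr rfl
    intro y _
    have h2 : rest (ConjClasses.mk 1) F ((y.2.2.1 : H) * y.2.2.2) y.2.2.1 =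
        ∑ β ∈ T, G (φ β) ((y.2.2.1 : H) * y.2.2.2) y.2.2.1 * b β := by
      by_cases hw : (y.2.2.1 : H) * y.2.2.2 = 1
      · have h3 : ∀ β, G (φ β) ((y.2.2.1 : H) * y.2.2.2) y.2.2.1 =
            algebraMap (ZMod p) K (b.repr (F 1 (y.2.2.1 : H)) β) := by
          intro β
          show (if (y.2.2.1 : H) * y.2.2.2 = 1 then _ else 0) = _
          rw [if_pos hw]
          rfl
        simp only [h3]
        unfold rest
        rw [hw, if_pos rfl]
        apply expand b
        intro β hβ
        rw [Finset.mem_union, Finset.mem_biUnion]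
        exact Or.inr ⟨y, Finset.mem_univ _, hβ⟩
      · have h3 : ∀ β, G (φ β) ((y.2.2.1 : H) * y.2.2.2) y.2.2.1 = 0 := by
          intro β
          show (if (y.2.2.1 : H) * y.2.2.2 = 1 then _ else 0) = _
          rw [if_neg hw]
        simp only [h3, zero_mul, Finset.sum_const_zero]
        unfold rest
        rw [if_neg]
        rw [ConjClasses.mk_eq_mk_iff_isConj, isConj_one_left]
        exact hw
    rw [h2, Finset.smul_sum]
    apply Finset.sum_congr rfl
    intro β _
    rw [smul_eq_mul, smul_eq_mul]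
    ring
  rw [h1]
  have h4 : F 1 γ = ∑ β ∈ T, algebraMap (ZMod p) K (b.repr (F 1 γ) β) * b β := by
    apply expand b
    intro β hβ
    rw [Finset.mem_union]
    exact Or.inl hβ
  rw [h4]
  apply Finset.sum_congr rfl
  intro β _
  congr 1
  rw [← hl]
  congr 1
  exact (hγ (φ β)).trans (hφ β γ)

end one

section main

variable {K : Type*} [Field K] {Γ : Type*} [Group Γ] {n p : ℕ} [hp : Fact p.Prime] [CharP K p]

/-- **Hochschild one-cocycles over fields of odd characteristic** -/
theorem charp_main (hp2 : p ≠ 2) (A : (Matrix (Fin n) (Fin n) (MonoidAlgebra K Γ))ˣ)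
    (hΓ : ∀ H : Subgroup Γ, H.FG → (∀ x y : H, x ^ p = y ^ p → x = y) ∧
      ∀ g : H, g ≠ 1 → ∃ k : ℕ, ∀ x : H, x ^ p ^ k ≠ g) :
    ∃ γ : Γ, ∀ f : Γ → Γ → K, (∀ x y z : Γ, f (x * y) z - f x (y * z) + f (z * x) y = 0) →
      pairing f (A⁻¹).val A.val = f γ⁻¹ γ := by
  set S : Finset Γ := supp A.val ∪ supp (A⁻¹).val with hS
  have hA : ∀ i j g, (A.val i j).coeff g ≠ 0 → g ∈ S := fun i j g hg =>
    Finset.mem_union_left _ (mem_supp _ i j g hg)
  have hB : ∀ i j g, ((A⁻¹).val i j).coeff g ≠ 0 → g ∈ S :=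
    fun i j g hg => Finset.mem_union_right _ (mem_supp _ i j g hg)
  have hpair : InvPair (cf A.val) (cf (A⁻¹).val) S := invPair_units A
  have hH : (Subgroup.closure (S : Set Γ)).FG := ⟨S, rfl⟩
  have hfg : Group.FG (Subgroup.closure (S : Set Γ)) := (Group.fg_iff_subgroup_fg _).2 hH
  obtain ⟨hroot, hdiv⟩ := hΓ _ hH
  obtain ⟨γ, hγ⟩ := one_class hp2 hfg hroot (invPair_res hpair)
  refine ⟨γ.1, ?_⟩
  intro f hf
  rw [pairing_eq f (A⁻¹).val A.val S hA hB]
  have hcoc := isCoc_of_hochschild f hf
  let F0 : Subgroup.closure (S : Set Γ) → Subgroup.closure (S : Set Γ) → K :=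
    fun w x => f (x.1⁻¹ * w.1) x.1
  have hF0 : IsCoc F0 := by
    intro w x y
    exact hcoc w.1 x.1 y.1
  rw [← DsumR_res (S := S) (cf A.val) (cf (A⁻¹).val) F0 (fun w x => f (x⁻¹ * w) x)
    (fun w x => rfl)]
  rw [hoch_main (invPair_res hpair) hF0 (by
    intro x hx
    refine ⟨p, hp.out, hp2, ?_, hroot, hdiv⟩
    intro m y hy
    rw [CharP.cast_eq_zero, zero_mul] at hy
    exact pow_ne_zero m hx hy.symm), hγ F0 hF0]
  show f (γ.1⁻¹ * (1 : Γ)) γ.1 = _
  rw [mul_one]

/-- values in vector spaces -/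
theorem charp_module (hp2 : p ≠ 2) (A : (Matrix (Fin n) (Fin n) (MonoidAlgebra K Γ))ˣ)
    (hΓ : ∀ H : Subgroup Γ, H.FG → (∀ x y : H, x ^ p = y ^ p → x = y) ∧
      ∀ g : H, g ≠ 1 → ∃ k : ℕ, ∀ x : H, x ^ p ^ k ≠ g) :
    ∃ γ : Γ, ∀ (M : Type*) [AddCommGroup M] [Module K M] (f : Γ → Γ → M),
      (∀ x y z : Γ, f (x * y) z - f x (y * z) + f (z * x) y = 0) →
      pairing f (A⁻¹).val A.val = f γ⁻¹ γ := by
  obtain ⟨γ, hγ⟩ := charp_main hp2 A hΓ
  refine ⟨γ, ?_⟩
  intro M _ _ f hf
  rw [← sub_eq_zero, ← Module.forall_dual_apply_eq_zero_iff K]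
  intro l
  have h1 := hγ (fun x y => l (f x y)) (by
    intro x y z
    rw [← map_sub, ← map_add, hf, map_zero])
  have h2 : l (pairing f (A⁻¹).val A.val) = pairing (fun x y => l (f x y)) (A⁻¹).val A.val := by
    unfold pairing
    simp only [Finsupp.sum, map_sum, map_smul]
  rw [map_sub, h2, h1, sub_self]

end main

end H219.WhH
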