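import Pool.Agent.H219.WhC.Det
import Pool.Agent.H219.Wh.Chain

/-!
# Hochschild one-cocycles modulo `p`: the contributions of the nontrivial classes are nilpotent
-/

set_option autoImplicit false
set_option linter.unusedSectionVars false

namespace H219.WhH

open Finset
open Pool.Agent.H23R2 (InvPair IsCoc Y sum_Y_eq isCoc_of_hochschild resS finite_inv_primes)
open H219.WhR (coc_pow rest rest_coc)
open H219.Wh (Fk Fk_pos Fk_neg Fk_coc Fk_pow Fk_diag pow_class_inj)
open H219.WhC
open scoped Classical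

section charp

variable {R : Type*} [CommRing R] {I : Type*} [Fintype I] {Γ : Type*} [Group Γ]
  {p : ℕ} [hp : Fact p.Prime] [CharP R p]

lemma Fk_map {M N : Type*} [AddCommGroup M] [AddCommGroup N] (q : M →+ N) (F : Γ → Γ → M)
    (g : Γ) (k : ℕ) (w x : Γ) :
    q (Fk p F g k w x) = Fk p (fun a b => q (F a b)) g k w x := by
  unfold Fk
  split_ifs
  · rfl
  · exact map_zero q

lemma DsumR_pow {A B : I → I → Γ → R} {S : Finset Γ} {F : Γ → Γ → R}
    (hF : ∀ w x, F w x ^ p = F w x) (m : ℕ) :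
    DsumR A B S F ^ p ^ m =
      DsumR (fun i j g => A i j g ^ p ^ m) (fun i j g => B i j g ^ p ^ m) S F := by
  have hF' : ∀ w x, F w x ^ p ^ m = F w x := by
    intro w x
    induction m with
    | zero => simp
    | succ m ih => rw [pow_succ, pow_mul, ih, hF]
  unfold DsumR
  rw [sum_pow_char_pow]
  apply Finset.sum_congr rfl
  intro y _
  rw [smul_eq_mul, smul_eq_mul, mul_pow, mul_pow, hF']

lemma chain_iter (hp2 : p ≠ 2) (hroot : ∀ x y : Γ, x ^ p = y ^ p → x = y) {S : Finset Γ}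
    {F : Γ → Γ → R} (hF : IsCoc F) (g : Γ) (m : ℕ) :
    ∀ {A B : I → I → Γ → R} (_ : InvPair A B S),
    DsumR A B S (Fk p F g m) =
      DsumR (fun i j g => A i j g ^ p ^ m) (fun i j g => B i j g ^ p ^ m) S (Fk p F g 0) := by
  let _ : Module (ZMod p) R := AddCommGroup.zmodModule (fun x => smul_p R x)
  induction m with
  | zero => intro A B _; simp
  | succ m ih =>
    intro A B h
    have h1 : InvPair (fun i j g => A i j g ^ p) (fun i j g => B i j g ^ p) S := by
      have := h.map (frobenius R p)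
      simpa only [frobenius_def] using this
    have hb : ∀ w, Fk p F g (m + 1) w w = 0 := by
      intro w
      have h2 := Fk_diag hroot hF g m w
      rw [smul_p R, AddSubgroup.zmultiples_zero_eq_bot, AddSubgroup.mem_bot] at h2
      exact h2
    rw [frobenius_relation h hp2 (Fk_coc hroot hF g (m + 1)) hb]
    simp only [Fk_pow hroot]
    rw [ih h1]
    simp only [← pow_mul, ← pow_succ']

lemma nil_fixed (hp2 : p ≠ 2) (hroot : ∀ x y : Γ, x ^ p = y ^ p → x = y)
    (hdiv : ∀ g : Γ, g ≠ 1 → ∃ k : ℕ, ∀ x, x ^ (p ^ k) ≠ g) {A B : I → I → Γ → R}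
    {S : Finset Γ} (h : InvPair A B S) {F : Γ → Γ → R} (hF : IsCoc F)
    (hfix : ∀ w x, F w x ^ p = F w x) {g : Γ} (hg : g ≠ 1) :
    IsNilpotent (DsumR A B S (Fk p F g 0)) := by
  have hfin : {k : ℕ | ∃ y : Y I S, ∃ w, IsConj g w ∧
      w ^ (p ^ k) = (y.2.2.1 : Γ) * y.2.2.2}.Finite := by
    have h1 : {k : ℕ | ∃ y : Y I S, ∃ w, IsConj g w ∧
        w ^ (p ^ k) = (y.2.2.1 : Γ) * y.2.2.2} =
        ⋃ y : Y I S, {k : ℕ | ∃ w, IsConj g w ∧ w ^ (p ^ k) = (y.2.2.1 : Γ) * y.2.2.2} := by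
      ext k; simp
    rw [h1]
    refine Set.finite_iUnion fun y => Set.Subsingleton.finite ?_
    rintro a ⟨w, hw, hwa⟩ b ⟨w', hw', hwb⟩
    exact pow_class_inj hroot hdiv hg hw hw' (hwa.trans hwb.symm)
  obtain ⟨m, hm⟩ := Infinite.exists_notMem_finset hfin.toFinset
  rw [Set.Finite.mem_toFinset] at hm
  refine ⟨p ^ m, ?_⟩
  have hfix' : ∀ w x, Fk p F g 0 w x ^ p = Fk p F g 0 w x := by
    intro w x
    unfold Fk
    split_ifs
    · exact hfix _ _
    · exact zero_pow hp.out.ne_zero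
  rw [DsumR_pow hfix', ← chain_iter hp2 hroot hF g m h]
  unfold DsumR
  apply Finset.sum_eq_zero
  intro y _
  rw [Fk_neg, smul_zero]
  rintro ⟨w, hw, hw'⟩
  exact hm ⟨y, w, hw, hw'⟩

/-- the contribution of a nontrivial class is nilpotent -/
theorem nil_class (hp2 : p ≠ 2) (hroot : ∀ x y : Γ, x ^ p = y ^ p → x = y)
    (hdiv : ∀ g : Γ, g ≠ 1 → ∃ k : ℕ, ∀ x, x ^ (p ^ k) ≠ g) {A B : I → I → Γ → R}
    {S : Finset Γ} (h : InvPair A B S) {F : Γ → Γ → R} (hF : IsCoc F) {g : Γ} (hg : g ≠ 1) :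
    IsNilpotent (DsumR A B S (Fk p F g 0)) := by
  let _ : Algebra (ZMod p) R := ZMod.algebra R p
  let b := Module.Basis.ofVectorSpace (ZMod p) R
  let Fb : Module.Basis.ofVectorSpaceIndex (ZMod p) R → Γ → Γ → R := fun β w x =>
    algebraMap (ZMod p) R (b.repr (F w x) β)
  have hFb : ∀ β, IsCoc (Fb β) := by
    intro β w x y
    show algebraMap (ZMod p) R (b.repr (F w (x * y)) β) =
      algebraMap (ZMod p) R (b.repr (F w x) β) +
        algebraMap (ZMod p) R (b.repr (F (x⁻¹ * w * x) y) β)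
    rw [hF w x y, map_add, Finsupp.add_apply, map_add]
  have hfix : ∀ β w x, Fb β w x ^ p = Fb β w x := by
    intro β w x
    show (algebraMap (ZMod p) R (b.repr (F w x) β)) ^ p = _
    rw [← map_pow, ZMod.pow_card]
  let T : Finset (Module.Basis.ofVectorSpaceIndex (ZMod p) R) :=
    univ.biUnion fun y : Y I S =>
      (b.repr (Fk p F g 0 ((y.2.2.1 : Γ) * y.2.2.2) y.2.2.1)).support
  have hexp : ∀ y : Y I S, Fk p F g 0 ((y.2.2.1 : Γ) * y.2.2.2) y.2.2.1 =
      ∑ β ∈ T, Fk p (Fb β) g 0 ((y.2.2.1 : Γ) * y.2.2.2) y.2.2.1 * b β := by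
    intro y
    have h1 : ∀ β, Fk p (Fb β) g 0 ((y.2.2.1 : Γ) * y.2.2.2) y.2.2.1 =
        algebraMap (ZMod p) R (b.repr (Fk p F g 0 ((y.2.2.1 : Γ) * y.2.2.2) y.2.2.1) β) := by
      intro β
      let q : R →+ R :=
        { toFun := fun v => algebraMap (ZMod p) R (b.repr v β)
          map_zero' := by simp
          map_add' := by intro v w; simp }
      exact (Fk_map (p := p) q F g 0 _ _).symm
    simp only [h1]
    set v := Fk p F g 0 ((y.2.2.1 : Γ) * y.2.2.2) y.2.2.1 with hv
    have h2 : v = (b.repr v).sum fun β c => algebraMap (ZMod p) R c * b β := by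
      conv_lhs => rw [← b.linearCombination_repr v]
      rw [Finsupp.linearCombination_apply]
      simp only [Algebra.smul_def]
    refine h2.trans ?_
    apply Finsupp.sum_of_support_subset
    · intro β hβ
      rw [Finset.mem_biUnion]
      exact ⟨y, Finset.mem_univ _, hβ⟩
    · intro β _
      rw [map_zero, zero_mul]
  have hsum : DsumR A B S (Fk p F g 0) =
      ∑ β ∈ T, DsumR A B S (Fk p (Fb β) g 0) * b β := by
    unfold DsumR
    simp only [Finset.sum_mul]
    rw [Finset.sum_comm]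
    apply Finset.sum_congr rfl
    intro y _
    rw [hexp y, Finset.smul_sum]
    apply Finset.sum_congr rfl
    intro β _
    rw [smul_eq_mul, smul_eq_mul]
    ring
  rw [hsum]
  apply isNilpotent_sum
  intro β _
  exact (Commute.all _ _).isNilpotent_mul_right (nil_fixed hp2 hroot hdiv h (hFb β) (hfix β) hg)

end charp

lemma Fk_zero_eq {Γ : Type*} [Group Γ] {p : ℕ} {M : Type*} [AddCommGroup M] (F : Γ → Γ → M)
    (hroot : ∀ x y : Γ, x ^ p = y ^ p → x = y) (g : Γ) :
    Fk p F g 0 = rest (ConjClasses.mk g) F := by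
  funext w x
  unfold rest
  split_ifs with h
  · have hc : IsConj g w := (ConjClasses.mk_eq_mk_iff_isConj.1 h).symm
    have := Fk_pos hroot F g 0 hc x
    rwa [pow_zero, pow_one] at this
  · apply Fk_neg
    rintro ⟨v, hv, hv'⟩
    rw [pow_zero, pow_one] at hv'
    subst hv'
    exact h (ConjClasses.mk_eq_mk_iff_isConj.2 hv.symm)

section vanish

variable {k : Type*} [CommRing k] {I : Type*} [Fintype I] {Γ : Type*} [Group Γ]

/-- for a nontrivial class a power of the contribution is divisible by `p` -/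
theorem class_pow_div {a b : I → I → Γ → k} {T : Finset Γ} (h : InvPair a b T) {p : ℕ}
    (hp : p.Prime) (hp2 : p ≠ 2) (hroot : ∀ x y : Γ, x ^ p = y ^ p → x = y)
    (hdiv : ∀ g : Γ, g ≠ 1 → ∃ k : ℕ, ∀ x, x ^ (p ^ k) ≠ g) (hu : ∀ y : k, (p : k) * y ≠ 1)
    {F : Γ → Γ → k} (hF : IsCoc F) {g : Γ} (hg : g ≠ 1) :
    ∃ (m : ℕ) (y : k), (p : k) * y = DsumR a b T (rest (ConjClasses.mk g) F) ^ m := by
  have : Fact p.Prime := ⟨hp⟩
  let J : Ideal k := Ideal.span {(p : k)}
  have hJ : J ≠ ⊤ := by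
    intro hJ
    have h1 : (1 : k) ∈ J := hJ ▸ Submodule.mem_top
    obtain ⟨u, hu'⟩ := Ideal.mem_span_singleton'.1 h1
    exact hu u (by rw [mul_comm]; exact hu')
  have : Nontrivial (k ⧸ J) := Ideal.Quotient.nontrivial_iff.2 hJ
  have : CharP (k ⧸ J) p := by
    rw [CharP.charP_iff_prime_eq_zero hp]
    have : ((p : ℕ) : k ⧸ J) = Ideal.Quotient.mk J (p : k) := by simp
    rw [this, Ideal.Quotient.eq_zero_iff_mem]
    exact Ideal.subset_span rfl
  have hqF : IsCoc (fun w x => Ideal.Quotient.mk J (F w x)) := by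
    intro w x y
    show Ideal.Quotient.mk J _ = Ideal.Quotient.mk J _ + Ideal.Quotient.mk J _
    rw [← map_add]
    exact congrArg _ (hF w x y)
  obtain ⟨m, hm⟩ := nil_class hp2 hroot hdiv (h.map (Ideal.Quotient.mk J)) hqF hg
  rw [Fk_zero_eq _ hroot] at hm
  have h3 : Ideal.Quotient.mk J (DsumR a b T (rest (ConjClasses.mk g) F)) =
      DsumR (fun i j g => Ideal.Quotient.mk J (a i j g))
        (fun i j g => Ideal.Quotient.mk J (b i j g)) T
        (rest (ConjClasses.mk g) (fun w x => Ideal.Quotient.mk J (F w x))) := by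
    unfold DsumR
    rw [map_sum]
    apply Finset.sum_congr rfl
    intro y _
    rw [smul_eq_mul, smul_eq_mul, map_mul, map_mul]
    congr 1
    unfold rest
    split_ifs
    · rfl
    · exact map_zero _
  rw [← h3, ← map_pow, Ideal.Quotient.eq_zero_iff_mem] at hm
  obtain ⟨y, hy⟩ := Ideal.mem_span_singleton'.1 hm
  exact ⟨m, y, by rw [mul_comm]; exact hy⟩

/-- **Hochschild one-cocycles**, coefficient form: only the pairs with product `1` contribute -/
theorem hoch_main {a b : I → I → Γ → k} {T : Finset Γ} (h : InvPair a b T)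
    {F : Γ → Γ → k} (hF : IsCoc F)
    (hG : ∀ x : k, x ≠ 0 → ∃ p : ℕ, p.Prime ∧ p ≠ 2 ∧
      (∀ (m : ℕ) (y : k), (p : k) * y ≠ x ^ m) ∧
      (∀ x y : Γ, x ^ p = y ^ p → x = y) ∧
      ∀ g : Γ, g ≠ 1 → ∃ k : ℕ, ∀ x, x ^ (p ^ k) ≠ g) :
    DsumR a b T F = DsumR a b T (rest (ConjClasses.mk 1) F) := by
  let cl : Y I T → ConjClasses Γ := fun y => ConjClasses.mk ((y.2.2.1 : Γ) * y.2.2.2)
  set cls : Finset (ConjClasses Γ) := insert (ConjClasses.mk 1) (Finset.univ.image cl) with hcls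
  have h1 : DsumR a b T F = ∑ C ∈ cls, DsumR a b T (rest C F) := by
    unfold DsumR
    rw [Finset.sum_comm]
    apply Finset.sum_congr rfl
    intro y _
    rw [← Finset.smul_sum]
    congr 1
    rw [Finset.sum_eq_single (cl y)]
    · unfold rest
      rw [if_pos rfl]
    · intro C _ hC
      unfold rest
      rw [if_neg (fun hh => hC hh.symm)]
    · intro hh
      exact absurd (Finset.mem_insert_of_mem (Finset.mem_image_of_mem cl (Finset.mem_univ y))) hh
  have h2 : ∀ C : ConjClasses Γ, C ≠ ConjClasses.mk 1 → DsumR a b T (rest C F) = 0 := by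
    intro C hC
    obtain ⟨g, rfl⟩ := ConjClasses.exists_rep C
    have hg1 : g ≠ 1 := by
      rintro rfl
      exact hC rfl
    by_contra hne
    obtain ⟨p, hp, hp2, hmul, hroot, hdiv⟩ := hG _ hne
    obtain ⟨m, y, hy⟩ := class_pow_div h hp hp2 hroot hdiv
      (fun y => by simpa using hmul 0 y) hF hg1
    exact hmul m y hy
  rw [h1, Finset.sum_eq_single_of_mem (ConjClasses.mk 1) (Finset.mem_insert_self _ _)]
  intro C _ hC
  exact h2 C hC

end vanish

section field

variable {K : Type*} [Field K] [CharZero K] {Γ : Type*} [Group Γ] {n : ℕ}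

/-- only the pairs with product `1` contribute -/
theorem vanish_unitsH (A : (Matrix (Fin n) (Fin n) (MonoidAlgebra K Γ))ˣ) (s : Finset K)
    (f : Γ → Γ → K) (hs : ∀ x y, f x y ∈ Algebra.adjoin ℤ (s : Set K))
    (hf : ∀ x y z : Γ, f (x * y) z - f x (y * z) + f (z * x) y = 0)
    (hΓ : {p : ℕ | p.Prime ∧ (∀ x y : grpF A, x ^ p = y ^ p → x = y) ∧
      ∀ g : grpF A, g ≠ 1 → ∃ k : ℕ, ∀ x : grpF A, x ^ (p ^ k) ≠ g}.Infinite) :
    pairing f (A⁻¹).val A.val =
      pairing (fun g h => if g * h = 1 then f g h else 0) (A⁻¹).val A.val := by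
  set S : Finset Γ := suppF A with hS
  have hA : ∀ i j g, (A.val i j).coeff g ≠ 0 → g ∈ S := fun i j g hg =>
    Finset.mem_union_left _ (mem_supp _ i j g hg)
  have hB : ∀ i j g, ((A⁻¹).val i j).coeff g ≠ 0 → g ∈ S :=
    fun i j g hg => Finset.mem_union_right _ (mem_supp _ i j g hg)
  rw [pairing_eq f (A⁻¹).val A.val S hA hB, pairing_eq _ (A⁻¹).val A.val S hA hB]
  have hpair : InvPair (cf A.val) (cf (A⁻¹).val) S := invPair_units A
  have hcoc := isCoc_of_hochschild f hf
  let R₀ : Subalgebra ℤ K := Algebra.adjoin ℤ ((s ∪ coefs A : Finset K) : Set K)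
  let a0 : Fin n → Fin n → Γ → R₀ := fun i j g => ⟨cf A.val i j g, cf_mem A s i j g⟩
  let b0 : Fin n → Fin n → Γ → R₀ := fun i j g => ⟨cf (A⁻¹).val i j g, cf_mem' A s i j g⟩
  have hmono : ∀ x ∈ Algebra.adjoin ℤ (s : Set K), x ∈ R₀ := fun x hx =>
    Algebra.adjoin_mono (by intro y hy; simp only [Finset.coe_union]; exact Or.inl hy) hx
  have hpair0 : InvPair a0 b0 S :=
    invPair_of_injective (R₀.val : R₀ →+* K) Subtype.val_injective hpair
  let FΓ : Γ → Γ → R₀ := fun w x => ⟨f (x⁻¹ * w) x, hmono _ (hs _ _)⟩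
  let F0 : Subgroup.closure (S : Set Γ) → Subgroup.closure (S : Set Γ) → R₀ :=
    fun w x => FΓ w.1 x.1
  have hF0 : IsCoc F0 := by
    intro w x y
    apply Subtype.ext
    exact hcoc w.1 x.1 y.1
  have hmain := hoch_main (invPair_res hpair0) hF0 (by
    intro x hx
    have hx' : x.1 ≠ 0 := fun h0 => hx (Subtype.ext h0)
    have hfin := (finite_inv_primes (insert x.1⁻¹ (s ∪ coefs A))).union
      (Set.finite_singleton 2)
    obtain ⟨p, hp, hpn⟩ := (hΓ.sdiff hfin).nonempty
    refine ⟨p, hp.1, ?_, ?_, hp.2.1, hp.2.2⟩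
    · rintro rfl
      exact hpn (Or.inr rfl)
    · intro m y hy
      apply hpn
      left
      refine ⟨hp.1, ?_⟩
      have hp0 : (p : K) ≠ 0 := by exact_mod_cast hp.1.ne_zero
      have h1 : (p : K) * y.1 = x.1 ^ m := by
        have := congrArg Subtype.val hy
        simpa using this
      have h2 : (p : K)⁻¹ = (x.1⁻¹) ^ m * y.1 := by
        have hxm : x.1 ^ m ≠ 0 := pow_ne_zero _ hx'
        rw [inv_pow]
        field_simp
        rw [← h1]
      rw [h2]
      apply Subalgebra.mul_mem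
      · apply Subalgebra.pow_mem
        apply Algebra.subset_adjoin
        simp
      · refine Algebra.adjoin_mono ?_ y.2
        intro z hz
        rw [Finset.coe_insert]
        exact Or.inr hz)
  have hrest : ∀ w x, rest (ConjClasses.mk 1) F0 w x =
      (fun w x : Γ => if w = 1 then FΓ w x else 0) w.1 x.1 := by
    intro w x
    unfold rest
    by_cases hw : w = 1
    · rw [hw]
      rw [if_pos rfl]
      show _ = if ((1 : Subgroup.closure (S : Set Γ)) : Γ) = 1 then _ else _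
      rw [if_pos (by simp)]
    · rw [if_neg]
      · have hw' : ¬ (w : Γ) = 1 := fun h0 => hw (Subtype.ext h0)
        show (0 : R₀) = if (w : Γ) = 1 then FΓ w.1 x.1 else 0
        rw [if_neg hw']
      · rw [ConjClasses.mk_eq_mk_iff_isConj, isConj_one_left]
        exact fun hh => hw hh
  rw [DsumR_res (S := S) a0 b0 F0 FΓ (fun w x => rfl),
    DsumR_res (S := S) a0 b0 (rest (ConjClasses.mk 1) F0)
      (fun w x : Γ => if w = 1 then FΓ w x else 0) hrest] at hmain
  have hcoe : ∀ G : Γ → Γ → R₀, (DsumR a0 b0 S G : R₀).1 =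
      DsumR (cf A.val) (cf (A⁻¹).val) S (fun w x => (G w x).1) := by
    intro G
    unfold DsumR
    have h1 : ∀ (t : Finset (Y (Fin n) S)) (h : Y (Fin n) S → R₀),
        (∑ y ∈ t, h y : R₀).1 = ∑ y ∈ t, (h y).1 := by
      intro t h
      exact map_sum R₀.val h t
    rw [h1]
    rfl
  have h2 := congrArg Subtype.val hmain
  rw [hcoe, hcoe] at h2
  refine h2.trans ?_
  congr 1
  funext w x
  have e1 : (x⁻¹ * w * x = 1) ↔ w = 1 := by
    constructor
    · intro h
      have h3 : w = x * (x⁻¹ * w * x) * x⁻¹ := by group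
      rw [h3, h]
      group
    · rintro rfl
      simp
  show (if w = 1 then FΓ w x else 0 : R₀).1 = if x⁻¹ * w * x = 1 then f (x⁻¹ * w) x else 0
  by_cases hw : w = 1
  · rw [if_pos hw, if_pos (e1.2 hw)]
  · rw [if_neg hw, if_neg (fun h => hw (e1.1 h))]
    rfl

/-- **Hochschild one-cocycles over fields of characteristic zero** -/
theorem field_mainH (A : (Matrix (Fin n) (Fin n) (MonoidAlgebra K Γ))ˣ) :
    ∃ γ : Γ, {p : ℕ | p.Prime ∧ (∀ x y : grpF A, x ^ p = y ^ p → x = y) ∧
        ∀ g : grpF A, g ≠ 1 → ∃ k : ℕ, ∀ x : grpF A, x ^ (p ^ k) ≠ g}.Infinite →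
      ∀ (s : Finset K) (f : Γ → Γ → K), (∀ x y, f x y ∈ Algebra.adjoin ℤ (s : Set K)) →
        (∀ x y z : Γ, f (x * y) z - f x (y * z) + f (z * x) y = 0) →
        pairing f (A⁻¹).val A.val = f γ⁻¹ γ := by
  obtain ⟨γ, hγ⟩ := exists_gamma A
  refine ⟨γ, ?_⟩
  intro hΓ s f hs hf
  have hcoc := isCoc_of_hochschild f hf
  let φ : Γ →* Multiplicative K :=
    { toFun := fun x => Multiplicative.ofAdd (f x⁻¹ x)
      map_one' := by
        have h1 := hcoc.one 1
        simp only [inv_one, mul_one] at h1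
        rw [inv_one, h1]
        rfl
      map_mul' := by
        intro x y
        have h1 := Pool.Agent.H23R2.coc_one_hom hcoc x y
        simp only [mul_one] at h1
        rw [h1]
        rfl }
  have h1 := vanish_unitsH A s f hs hf hΓ
  have h2 := vanish_unitsH A s (fh φ) (by
    intro x y
    unfold fh
    split_ifs
    · exact hs _ _
    · exact Subalgebra.zero_mem _) (fh_hoch φ) hΓ
  have h3 : (fun g h => if g * h = 1 then f g h else 0) =
      (fun g h => if g * h = 1 then fh φ g h else 0) := by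
    funext g h
    by_cases hgh : g * h = 1
    · rw [if_pos hgh, if_pos hgh]
      unfold fh
      rw [hgh, map_one, if_pos rfl]
      have : g = h⁻¹ := eq_inv_of_mul_eq_one_left hgh
      rw [this]
      rfl
    · rw [if_neg hgh, if_neg hgh]
  rw [h1, h3, ← h2, hγ]
  rfl

end field

end H219.WhH
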